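import Mathlib
import Pool.Agent.H41.VS.Final
import Pool.Agent.H41.VS.Inv

/-!
# Amalgams of virtually special groups over virtually cyclic subgroups (MP_cc72ee_al)

Q1 is answered positively in the usual language of the subject: groups in any universe,
arbitrary simplicial graphs in the hypothesis and finite ones in the conclusion, and any model of
the amalgamated free product (universal property).
-/

set_option autoImplicit false

namespace Pool.Agent.Results.MP_cc72ee_al.AnyAmalgam

open Function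

universe u v w

/-- The right-angled Artin group `A(Γ)`: one generator for each vertex of the simplicial graph `Γ`,
and the relations `a b a⁻¹ b⁻¹ = 1` for adjacent vertices `a`, `b`. -/
abbrev RAAG {V : Type v} (Γ : SimpleGraph V) : Type v :=
  PresentedGroup {r : FreeGroup V | ∃ a b : V, Γ.Adj a b ∧
    r = FreeGroup.of a * FreeGroup.of b * (FreeGroup.of a)⁻¹ * (FreeGroup.of b)⁻¹}

/-- `G` is virtually special: some subgroup of finite index is isomorphic to a subgroup of the
right-angled Artin group of a finite simplicial graph. -/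
def VirtuallySpecial (G : Type u) [Group G] : Prop :=
  ∃ K : Subgroup G, K.FiniteIndex ∧ ∃ (n : ℕ) (Γ : SimpleGraph (Fin n)) (f : K →* RAAG Γ),
    Injective f

/-- `G` has a subgroup of finite index which embeds in a right-angled Artin group of an arbitrary,
possibly infinite, simplicial graph. -/
def VirtuallySpecialInf (G : Type u) [Group G] : Prop :=
  ∃ K : Subgroup G, K.FiniteIndex ∧ ∃ (V : Type v) (Γ : SimpleGraph V) (f : K →* RAAG Γ),
    Injective f

/-- `G` is virtually cyclic: it has a cyclic subgroup of finite index. -/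
def VirtuallyCyclic (G : Type u) [Group G] : Prop :=
  ∃ C : Subgroup G, IsCyclic C ∧ C.FiniteIndex

/-- `G` together with `ι₁ : G₁ →* G` and `ι₂ : G₂ →* G` is the amalgamated free product of `G₁` and
`G₂` along `φ₁ : G₀ →* G₁` and `φ₂ : G₀ →* G₂` (universal property in the category of groups). -/
structure IsAmalgam {G₀ G₁ G₂ G : Type u} [Group G₀] [Group G₁] [Group G₂] [Group G]
    (φ₁ : G₀ →* G₁) (φ₂ : G₀ →* G₂) (ι₁ : G₁ →* G) (ι₂ : G₂ →* G) : Prop where
  /-- the square commutes -/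
  comm : ι₁.comp φ₁ = ι₂.comp φ₂
  /-- every compatible pair of homomorphisms extends uniquely -/
  desc : ∀ (L : Type u) [Group L] (f₁ : G₁ →* L) (f₂ : G₂ →* L), f₁.comp φ₁ = f₂.comp φ₂ →
    ∃! f : G →* L, f.comp ι₁ = f₁ ∧ f.comp ι₂ = f₂

theorem RAAG.comm {V : Type v} (Γ : SimpleGraph V) {a b : V} (h : Γ.Adj a b) :
    (PresentedGroup.of a : RAAG Γ) * PresentedGroup.of b =
      PresentedGroup.of b * PresentedGroup.of a := by
  have h1 : (PresentedGroup.mk {r : FreeGroup V | ∃ a b : V, Γ.Adj a b ∧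
      r = FreeGroup.of a * FreeGroup.of b * (FreeGroup.of a)⁻¹ * (FreeGroup.of b)⁻¹})
      (FreeGroup.of a * FreeGroup.of b * (FreeGroup.of a)⁻¹ * (FreeGroup.of b)⁻¹) = 1 :=
    (PresentedGroup.mk_eq_one_iff).2 (Subgroup.subset_normalClosure ⟨a, b, h, rfl⟩)
  rw [map_mul, map_mul, map_mul, map_inv, map_inv] at h1
  have h2 := mul_inv_eq_one.1 h1
  exact mul_inv_eq_iff_eq_mul.1 h2

/-- an element of `A(Γ)` involves only finitely many vertices -/
theorem RAAG.exists_finite {V : Type v} (Γ : SimpleGraph V) (x : RAAG Γ) :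
    ∃ T : Set V, T.Finite ∧ x ∈ Subgroup.closure ((PresentedGroup.of : V → RAAG Γ) '' T) := by
  have hx : x ∈ Subgroup.closure (Set.range (PresentedGroup.of : V → RAAG Γ)) := by
    rw [PresentedGroup.closure_range_of]
    trivial
  induction hx using Subgroup.closure_induction with
  | mem y hy =>
    obtain ⟨a, rfl⟩ := hy
    exact ⟨{a}, Set.finite_singleton a, Subgroup.subset_closure ⟨a, rfl, rfl⟩⟩
  | one => exact ⟨∅, Set.finite_empty, one_mem _⟩
  | mul y z _ _ hy hz =>
    obtain ⟨T, hT, hyT⟩ := hy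
    obtain ⟨T', hT', hzT⟩ := hz
    exact ⟨T ∪ T', hT.union hT', mul_mem
      (Subgroup.closure_mono (Set.image_mono Set.subset_union_left) hyT)
      (Subgroup.closure_mono (Set.image_mono Set.subset_union_right) hzT)⟩
  | inv y _ hy =>
    obtain ⟨T, hT, hyT⟩ := hy
    exact ⟨T, hT, inv_mem hyT⟩

/-- For finitely generated groups the graph may be taken finite. -/
theorem virtuallySpecial_of_inf (G : Type u) [Group G] [Group.FG G]
    (h : VirtuallySpecialInf.{u, v} G) : VirtuallySpecial G := by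
  classical
  obtain ⟨K, hK, V, Γ, f, hf⟩ := h
  refine ⟨K, hK, ?_⟩
  have : K.FiniteIndex := hK
  have hKfg : Group.FG K := K.fg_of_index_ne_zero
  obtain ⟨S, hS⟩ := (Group.fg_def.1 hKfg)
  choose T hT hxT using fun x : RAAG Γ => RAAG.exists_finite Γ x
  set U : Set V := ⋃ s ∈ (S : Set K), T (f s) with hU
  have hUfin : U.Finite := Set.Finite.biUnion S.finite_toSet (fun s _ => hT _)
  have hfU : ∀ k : K, f k ∈ Subgroup.closure ((PresentedGroup.of : V → RAAG Γ) '' U) := by
    intro k
    have hk : k ∈ Subgroup.closure (S : Set K) := by rw [hS]; trivial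
    have h1 : Subgroup.closure (S : Set K) ≤
        (Subgroup.closure ((PresentedGroup.of : V → RAAG Γ) '' U)).comap f := by
      rw [Subgroup.closure_le]
      intro s hs
      exact Subgroup.closure_mono (Set.image_mono (Set.subset_biUnion_of_mem hs)) (hxT (f s))
    exact h1 hk
  have : Finite U := hUfin
  let e : U ≃ Fin (Nat.card U) := Finite.equivFin U
  let j : Fin (Nat.card U) → V := fun i => (e.symm i : V)
  let Γ' : SimpleGraph (Fin (Nat.card U)) := Γ.comap j
  -- the retraction of `A(Γ)` onto `A(Γ')`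
  let r₀ : V → RAAG Γ' := fun a => if h : a ∈ U then PresentedGroup.of (e ⟨a, h⟩) else 1
  have hr₀ : ∀ r ∈ {r : FreeGroup V | ∃ a b : V, Γ.Adj a b ∧
      r = FreeGroup.of a * FreeGroup.of b * (FreeGroup.of a)⁻¹ * (FreeGroup.of b)⁻¹},
      FreeGroup.lift r₀ r = 1 := by
    rintro r ⟨a, b, hab, rfl⟩
    simp only [map_mul, map_inv, FreeGroup.lift_apply_of]
    by_cases ha : a ∈ U
    · by_cases hb : b ∈ U
      · have h1 : Γ'.Adj (e ⟨a, ha⟩) (e ⟨b, hb⟩) := by
          simp only [Γ', j, SimpleGraph.comap_adj, Equiv.symm_apply_apply]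
          exact hab
        have h2 := RAAG.comm Γ' h1
        simp only [r₀, dif_pos ha, dif_pos hb]
        rw [h2]
        group
      · have hb1 : r₀ b = 1 := dif_neg hb
        rw [hb1, mul_one, inv_one, mul_one, mul_inv_cancel]
    · have ha1 : r₀ a = 1 := dif_neg ha
      rw [ha1, one_mul, inv_one, mul_one, mul_inv_cancel]
  let r : RAAG Γ →* RAAG Γ' := PresentedGroup.toGroup hr₀
  let i₀ : Fin (Nat.card U) → RAAG Γ := fun i => PresentedGroup.of (j i)
  have hi₀ : ∀ r ∈ {r : FreeGroup (Fin (Nat.card U)) | ∃ a b, Γ'.Adj a b ∧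
      r = FreeGroup.of a * FreeGroup.of b * (FreeGroup.of a)⁻¹ * (FreeGroup.of b)⁻¹},
      FreeGroup.lift i₀ r = 1 := by
    rintro r ⟨a, b, hab, rfl⟩
    simp only [map_mul, map_inv, FreeGroup.lift_apply_of]
    have h1 : Γ.Adj (j a) (j b) := hab
    have h2 := RAAG.comm Γ h1
    simp only [i₀]
    rw [h2]
    group
  let i : RAAG Γ' →* RAAG Γ := PresentedGroup.toGroup hi₀
  have hir : ∀ x ∈ Subgroup.closure ((PresentedGroup.of : V → RAAG Γ) '' U), i (r x) = x := by
    intro x hx
    induction hx using Subgroup.closure_induction with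
    | mem y hy =>
      obtain ⟨a, ha, rfl⟩ := hy
      simp only [r, i, PresentedGroup.toGroup.of, r₀, dif_pos ha, i₀, j, Equiv.symm_apply_apply]
    | one => rw [map_one, map_one]
    | mul y z _ _ hy hz => rw [map_mul, map_mul, hy, hz]
    | inv y _ hy => rw [map_inv, map_inv, hy]
  refine ⟨Nat.card U, Γ', r.comp f, ?_⟩
  intro x y hxy
  apply hf
  have h1 : i (r (f x)) = i (r (f y)) := congrArg i hxy
  rwa [hir _ (hfU x), hir _ (hfU y)] at h1

/-- virtually special groups are countable -/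
theorem VirtuallySpecial.countable {G : Type u} [Group G] (h : VirtuallySpecial G) :
    Countable G := by
  obtain ⟨K, hK, n, Γ, f, hf⟩ := h
  have : K.FiniteIndex := hK
  have h1 : Countable (FreeGroup (Fin n)) := by
    unfold FreeGroup
    infer_instance
  have h2 : Countable (RAAG Γ) := (PresentedGroup.mk_surjective _).countable
  have : Countable K := hf.countable
  have : Finite (G ⧸ K) := inferInstance
  exact (Subgroup.groupEquivQuotientProdSubgroup (s := K)).injective.countable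

/-- virtual specialness passes to groups which embed -/
theorem VirtuallySpecial.of_injective {G : Type u} {P : Type w} [Group G] [Group P]
    (h : VirtuallySpecial P) (t : G →* P) (ht : Injective t) : VirtuallySpecial G := by
  obtain ⟨K, hK, n, Γ, f, hf⟩ := h
  have : K.FiniteIndex := hK
  have hfi : (K.comap t).FiniteIndex := by
    refine ⟨?_⟩
    rw [Subgroup.index_comap]
    exact (inferInstance : (K.subgroupOf t.range).FiniteIndex).index_ne_zero
  refine ⟨K.comap t, hfi, n, Γ, f.comp (t.subgroupComap K), ?_⟩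
  intro x y hxy
  have h1 := hf hxy
  have h2 : t x = t y := congrArg Subtype.val h1
  exact Subtype.ext (ht h2)

theorem VirtuallySpecial.vs {G : Type} [Group G] (h : VirtuallySpecial G) : H41.VS.VS G := by
  obtain ⟨K, hK, n, Γ, f, hf⟩ := h
  exact H41.VS.vs_of_raag G ⟨n, Γ, K, hK.index_ne_zero, f, hf⟩

theorem of_vs {G : Type} [Group G] (h : H41.VS.VS G) : VirtuallySpecial G := by
  obtain ⟨n, Γ, K, hK, f, hf⟩ := H41.VS.raag_of_vs G h
  exact ⟨K, ⟨hK⟩, n, Γ, f, hf⟩

/-- any model of the amalgam embeds in a compatible pair of homomorphisms which maps back -/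
theorem IsAmalgam.embeds {G₀ G₁ G₂ G : Type u} [Group G₀] [Group G₁] [Group G₂] [Group G]
    {φ₁ : G₀ →* G₁} {φ₂ : G₀ →* G₂} {ι₁ : G₁ →* G} {ι₂ : G₂ →* G} (hG : IsAmalgam φ₁ φ₂ ι₁ ι₂)
    {P : Type} [Group P] (b₁ : G₁ →* P) (b₂ : G₂ →* P) (hb : ∀ x, b₁ (φ₁ x) = b₂ (φ₂ x))
    (g : P →* G) (hg₁ : ∀ x, g (b₁ x) = ι₁ x) (hg₂ : ∀ x, g (b₂ x) = ι₂ x) :
    ∃ t : G →* P, Injective t := by
  let eu : ULift.{u, 0} P ≃* P := MulEquiv.ulift
  obtain ⟨s, ⟨hs₁, hs₂⟩, -⟩ := hG.desc (ULift.{u, 0} P)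
    (eu.symm.toMonoidHom.comp b₁) (eu.symm.toMonoidHom.comp b₂)
    (MonoidHom.ext fun x => congrArg eu.symm (hb x))
  let t : G →* P := eu.toMonoidHom.comp s
  have ht₁ : ∀ x, t (ι₁ x) = b₁ x := fun x => congrArg eu (DFunLike.congr_fun hs₁ x)
  have ht₂ : ∀ x, t (ι₂ x) = b₂ x := fun x => congrArg eu (DFunLike.congr_fun hs₂ x)
  obtain ⟨z, -, huniq⟩ := hG.desc G ι₁ ι₂ hG.comm
  have h1 : g.comp t = z := huniq (g.comp t)
    ⟨MonoidHom.ext fun x => by rw [MonoidHom.comp_apply, MonoidHom.comp_apply, ht₁, hg₁],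
      MonoidHom.ext fun x => by rw [MonoidHom.comp_apply, MonoidHom.comp_apply, ht₂, hg₂]⟩
  have h2 : MonoidHom.id G = z := huniq (MonoidHom.id G) ⟨rfl, rfl⟩
  exact ⟨t, LeftInverse.injective (g := g)
    (fun x => DFunLike.congr_fun (h1.trans h2.symm) x)⟩

theorem vcyc_of_equiv {A : Type} {B : Type u} [Group A] [Group B] (e : A ≃* B)
    (h : VirtuallyCyclic B) : H41.VS.VCyc A := by
  obtain ⟨C, hC, hi⟩ := h
  refine ⟨C.map e.symm.toMonoidHom, ?_, ?_⟩
  · exact isCyclic_of_surjective (e.symm.subgroupMap C) (e.symm.subgroupMap C).surjective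
  · have h1 : (C.map e.symm.toMonoidHom).index = C.index :=
      Subgroup.index_map_of_bijective e.symm.bijective C
    rw [h1]
    exact hi.index_ne_zero

/-- the two maps from the edge group into the Bool-indexed family of vertex groups -/
def edge {A B C : Type} [Group A] [Group B] [Group C] (f : C →* A) (g : C →* B) :
    ∀ i, C →* H41.VS.BQ A B i
  | true => f
  | false => g

/-- the concrete amalgam in `Type` -/
theorem amalgam_zero {A B C : Type} [Group A] [Group B] [Group C] (f : C →* A) (g : C →* B)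
    (hf : Injective f) (hg : Injective g) (hC : H41.VS.VCyc C) (hA : VirtuallySpecial A)
    (hB : VirtuallySpecial B) : VirtuallySpecial (Monoid.PushoutI (edge f g)) := by
  refine of_vs (H41.VS.amalgam_vs H41.VS.exists_inverting (H41.VS.BQ A B) C (edge f g) ?_ hC ?_)
  · intro i
    cases i
    · exact hg
    · exact hf
  · intro i
    cases i
    · exact hB.vs
    · exact hA.vs

/-- The amalgamation theorem, for groups in any universe and any model of the amalgam. -/
theorem amalgam {G₀ G₁ G₂ G : Type u} [Group G₀] [Group G₁] [Group G₂] [Group G]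
    (φ₁ : G₀ →* G₁) (φ₂ : G₀ →* G₂) (ι₁ : G₁ →* G) (ι₂ : G₂ →* G)
    (hφ₁ : Injective φ₁) (hφ₂ : Injective φ₂) (hG : IsAmalgam φ₁ φ₂ ι₁ ι₂)
    (h₀ : VirtuallyCyclic G₀) (h₁ : VirtuallySpecial G₁) (h₂ : VirtuallySpecial G₂) :
    VirtuallySpecial G := by
  have : Countable G₁ := h₁.countable
  have : Countable G₂ := h₂.countable
  have : Countable G₀ := hφ₁.countable
  obtain ⟨A, hA, ⟨e₁⟩⟩ : ∃ (A : Type) (_ : Group A), Nonempty (A ≃* G₁) :=
    ⟨Shrink.{0} G₁, inferInstance, ⟨Shrink.mulEquiv⟩⟩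
  obtain ⟨B, hB, ⟨e₂⟩⟩ : ∃ (B : Type) (_ : Group B), Nonempty (B ≃* G₂) :=
    ⟨Shrink.{0} G₂, inferInstance, ⟨Shrink.mulEquiv⟩⟩
  obtain ⟨C, hC, ⟨e₀⟩⟩ : ∃ (C : Type) (_ : Group C), Nonempty (C ≃* G₀) :=
    ⟨Shrink.{0} G₀, inferInstance, ⟨Shrink.mulEquiv⟩⟩
  let f : C →* A := e₁.symm.toMonoidHom.comp (φ₁.comp e₀.toMonoidHom)
  let f' : C →* B := e₂.symm.toMonoidHom.comp (φ₂.comp e₀.toMonoidHom)
  have hP : VirtuallySpecial (Monoid.PushoutI (edge f f')) :=
    amalgam_zero f f' (e₁.symm.injective.comp (hφ₁.comp e₀.injective))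
      (e₂.symm.injective.comp (hφ₂.comp e₀.injective)) (vcyc_of_equiv e₀ h₀)
      (h₁.of_injective e₁.toMonoidHom e₁.injective) (h₂.of_injective e₂.toMonoidHom e₂.injective)
  let a₁ : A →* Monoid.PushoutI (edge f f') := Monoid.PushoutI.of (φ := edge f f') true
  let a₂ : B →* Monoid.PushoutI (edge f f') := Monoid.PushoutI.of (φ := edge f f') false
  have ha : ∀ x : C, a₁ (f x) = a₂ (f' x) := fun x =>
    (Monoid.PushoutI.of_apply_eq_base (edge f f') true x).trans
      (Monoid.PushoutI.of_apply_eq_base (edge f f') false x).symm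
  let fam : ∀ i, H41.VS.BQ A B i →* G := fun i => match i with
      | true => (ι₁.comp e₁.toMonoidHom : A →* G)
      | false => (ι₂.comp e₂.toMonoidHom : B →* G)
  have hfam : ∀ i, (fam i).comp (edge f f' i) = ι₁.comp (φ₁.comp e₀.toMonoidHom) := by
    intro i
    cases i
    · refine MonoidHom.ext fun x => ?_
      change ι₂ (e₂ (e₂.symm (φ₂ (e₀ x)))) = ι₁ (φ₁ (e₀ x))
      rw [MulEquiv.apply_symm_apply]
      exact (DFunLike.congr_fun hG.comm (e₀ x)).symm
    · refine MonoidHom.ext fun x => ?_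
      change ι₁ (e₁ (e₁.symm (φ₁ (e₀ x)))) = ι₁ (φ₁ (e₀ x))
      rw [MulEquiv.apply_symm_apply]
  let g : Monoid.PushoutI (edge f f') →* G :=
    Monoid.PushoutI.lift fam (ι₁.comp (φ₁.comp e₀.toMonoidHom)) hfam
  have hg₁ : ∀ x : A, g (a₁ x) = ι₁ (e₁ x) := fun x =>
    Monoid.PushoutI.lift_of fam _ hfam (i := true) x
  have hg₂ : ∀ x : B, g (a₂ x) = ι₂ (e₂ x) := fun x =>
    Monoid.PushoutI.lift_of fam _ hfam (i := false) x
  obtain ⟨t, ht⟩ := hG.embeds (a₁.comp e₁.symm.toMonoidHom) (a₂.comp e₂.symm.toMonoidHom)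
    (by
      intro x
      obtain ⟨y, rfl⟩ := e₀.surjective x
      exact ha y) g
    (by
      intro x
      change g (a₁ (e₁.symm x)) = ι₁ x
      rw [hg₁, MulEquiv.apply_symm_apply])
    (by
      intro x
      change g (a₂ (e₂.symm x)) = ι₂ x
      rw [hg₂, MulEquiv.apply_symm_apply])
  exact hP.of_injective t ht

/-- **Q1, positive answer.** If `G₁`, `G₂` are finitely generated groups with finite-index
subgroups embedding in right-angled Artin groups (of arbitrary simplicial graphs) and `G₀` is a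
virtually cyclic group with injective homomorphisms to both, then every group `G` which is the
amalgamated free product `G₁ *_{G₀} G₂` is virtually special, with a finite graph. -/
theorem result {G₀ G₁ G₂ G : Type u} [Group G₀] [Group G₁] [Group G₂] [Group G]
    (φ₁ : G₀ →* G₁) (φ₂ : G₀ →* G₂) (ι₁ : G₁ →* G) (ι₂ : G₂ →* G)
    (hφ₁ : Injective φ₁) (hφ₂ : Injective φ₂) (hG : IsAmalgam φ₁ φ₂ ι₁ ι₂)
    (h₀ : VirtuallyCyclic G₀) (hf₁ : Group.FG G₁) (hf₂ : Group.FG G₂)
    (h₁ : VirtuallySpecialInf.{u, v} G₁) (h₂ : VirtuallySpecialInf.{u, w} G₂) :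
    VirtuallySpecial G := by
  have := hf₁
  have := hf₂
  exact amalgam φ₁ φ₂ ι₁ ι₂ hφ₁ hφ₂ hG h₀ (virtuallySpecial_of_inf G₁ h₁)
    (virtuallySpecial_of_inf G₂ h₂)

end Pool.Agent.Results.MP_cc72ee_al.AnyAmalgam
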